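import Pool.Agent.H53.GM.Targets2
import Pool.Agent.H3.GR.RED

/-!
# Forbidden coloured patterns: the reduction to the finite template is computable in polynomial time
-/

set_option autoImplicit false

namespace Pool.Agent.H50.GM

open Pool.Agent.H1.NP Pool.Agent.H1.PNP
open Pool.Agent.H68.OQP hiding eN eE eB
open Pool.Agent.H68.NPH hiding prs eN
open Function
open Pool.Agent.H68.BP (ph cV cC eE eN eZ code code_eq CSP csp_code csp_true code_of_cV ph_vals
  strOf polyOn_numsR lgF Sig Str IsHom)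
open Pool.Agent.H68.BT (Wg Cv Corr rowG rowG_length rowG_map rowG_mem rowG_getD csp_nil)
open Pool.Agent.H53.GC (arP relP Sym sigOf strOn)
open Pool.Agent.H53.GR (Ps pls)
open Pool.Agent.H53.GM (DmG FmG tmG)
open Pool.Agent.H3.GR.RED

/-- The homomorphisms of the output to the template correspond to the assignments. -/
theorem hom_iffG {σ : Sig} {M n : ℕ} {Y : Type} [Nonempty Y]
    (R : (s : Sym σ M) → (Ps M (arP σ M s.1) → Y) → Prop)
    {Ls L' : List (List ℕ)} (hL' : ∀ c, c ∈ L' ↔ ∃ (s : Option (Fin σ.m))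
      (y : Fin (arP σ M s) → Fin (n + M)) (t : Fin (arP σ M s) → Fin (arP σ M s)),
      relP (pls (strOf σ n Ls) M) M s y ∧ (∀ a b, y a ≤ y b ↔ t a ≤ t b) ∧
        c = rw' σ M n s y t) :
    (∃ q : (j : Fin M) → (Fin (j + 1) → Fin (n + M)) → Y,
      ∀ (s : Option (Fin σ.m)) (y : Fin (arP σ M s) → Fin (n + M))
        (t : Fin (arP σ M s) → Fin (arP σ M s)), relP (pls (strOf σ n Ls) M) M s y →
        (∀ a b, y a ≤ y b ↔ t a ≤ t b) → R ⟨s, t⟩ (fun p => q p.1 (fun i => y (p.2 i)))) ↔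
    ∃ f : Fin (M * (n + M) ^ M) → Y,
      IsHom (strOf (sigOf (Sym σ M) (fun s => Ps M (arP σ M s.1)))
        (M * (n + M) ^ M) L') (strOn R) f := by
  have hT : Corr (cvT σ M) (fun s (q : (rT σ M).Ar s → Y) => R s q) (strOn R) := strOn_corr _
  constructor
  · rintro ⟨q, hq⟩
    refine ⟨Function.extend cd (fun p => q p.1 p.2) (fun _ => Classical.arbitrary Y), ?_⟩
    intro l x hx
    obtain ⟨s, rfl⟩ := (cvT σ M).e.surjective l
    have e1 : x = (x ∘ (cvT σ M).a s) ∘ ((cvT σ M).a s).symm := by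
      funext i
      simp
    rw [e1] at hx
    obtain ⟨y, hr, ho, he⟩ := (strOf_rows hL' s _).1 hx
    refine (hT s _).2 ?_
    have h2 := hq s.1 y s.2 hr ho
    have e3 : (fun p : Ps M (arP σ M s.1) => q p.1 (fun i => y (p.2 i))) =
        ((fun i => Function.extend cd (fun p => q p.1 p.2) (fun _ => Classical.arbitrary Y) (x i)) ∘
          (cvT σ M).a s) := by
      funext p
      have e2 : x ((cvT σ M).a s p) = cd ⟨p.1, fun i => y (p.2 i)⟩ := by
        apply Fin.ext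
        rw [← entN_eq y p]
        exact (he p).symm
      simp only [comp_apply]
      rw [e2, cd_inj.extend_apply]
    rw [← e3]
    exact h2
  · rintro ⟨f, hf⟩
    refine ⟨fun j z => f (cd ⟨j, z⟩), ?_⟩
    intro s y t hr ho
    have h1 := (strOf_rows hL' (⟨s, t⟩ : Sym σ M)
      (fun p => cd ⟨p.1, fun i => y (p.2 i)⟩)).2 ⟨y, hr, ho, fun p => entN_eq y p⟩
    have h2 := (hT (⟨s, t⟩ : Sym σ M) _).1 (hf _ _ h1)
    have e3 : (fun p : Ps M (arP σ M s) => f (cd (M := M) ⟨p.1, fun i => y (p.2 i)⟩)) =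
        ((fun i => f (((fun p : Ps M (arP σ M s) => cd (M := M) ⟨p.1, fun i => y (p.2 i)⟩) ∘
          ((cvT σ M).a (⟨s, t⟩ : Sym σ M)).symm) i)) ∘ (cvT σ M).a (⟨s, t⟩ : Sym σ M)) := by
      funext p
      simp only [comp_apply]
      have e4 : ((cvT σ M).a (⟨s, t⟩ : Sym σ M)).symm
        (((cvT σ M).a (⟨s, t⟩ : Sym σ M)) p) = p := Equiv.symm_apply_apply _ _
      exact (congrArg (fun p : Ps M (arP σ M s) => f (cd (M := M) ⟨p.1, fun i => y (p.2 i)⟩))
        e4).symm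
    rw [e3]
    exact h2

theorem pf_RED (h1 : Pool.Agent.H53.GM.T_RE1) : Pool.Agent.H53.GM.T_RED := by
  intro τ σ N F Al A 𝔸 hH hT
  have hne : Nonempty (DmG τ N) := ⟨⟨⟨0, hH.pos⟩, ∅⟩⟩
  refine manyOne (polyOn_red (σ := σ) (M := N))
    (Q := fun l => CSP (tmG F Al) (unary l) = true) (fun p => Iff.rfl) (fun x => ?_)
  by_cases h : cV.tv (ph (σ.width + 1) x) []
  · obtain ⟨n, Ls, e1, rfl⟩ := code_of_cV h
    obtain ⟨L', e2, e3, e4⟩ := red_code (M := N) (n := n) e1
    rw [csp_code 𝔸 e1, e3, csp_code (tmG F Al) e2,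
      h1 τ σ N F Al A 𝔸 hH hT n (strOf σ n Ls)]
    exact hom_iffG (fun (s : Sym σ N) q => FmG F Al s.1 s.2 q) e4
  · constructor
    · intro hx
      obtain ⟨n, Ls, h1, rfl⟩ := csp_true 𝔸 hx
      obtain ⟨M', hM, h0, -, -, h3, -⟩ := ph_vals (n := n) h1
      refine absurd ?_ h
      rw [hM]
      simp only [cV, tv_and, tv_le, tv_eq, Ex.val, h0, h3]
      exact ⟨le_rfl, trivial⟩
    · intro hx
      rw [red_bad h] at hx
      exact absurd hx (csp_nil _)

end Pool.Agent.H50.GM
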