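import Pool.Agent.H53.GM.Targets2

/-!
# Forbidden coloured patterns: outputs
-/

set_option autoImplicit false

namespace Pool.Agent.H50.GM

open Pool.Agent.H68.BP Pool.Agent.H58.SF Pool.Agent.H53.GC Pool.Agent.H53.GR Pool.Agent.H53.GM
open Classical

theorem pf_OUT (hATM : Pool.Agent.H53.GM.T_ATM) (hTPB : Pool.Agent.H53.GM.T_TPB)
    (hMXS : Pool.Agent.H53.GM.T_MXS) : Pool.Agent.H53.GM.T_OUT := by
  intro τ σ N k F Al A 𝔸 𝔸' hH hk hval hcols K hK1 hK2 hK3 nP DP dP hgad I V W _ _ C f a hC hF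
    h hh pt s hs
  let ux : Fin 6 → W ⊕ Fin k → A := fun c => Sum.elim (fun w => f (s c w)) a
  let al : Finset W → Fin k → W ⊕ Fin k := fun g v =>
    if h : ∃ w ∈ g, pt w = v then Sum.inl h.choose else Sum.inr v
  have hal1 : ∀ g v, (∃ w ∈ g, pt w = v ∧ al g v = Sum.inl w) ∨
      ((¬ ∃ w ∈ g, pt w = v) ∧ al g v = Sum.inr v) := by
    intro g v
    by_cases h : ∃ w ∈ g, pt w = v
    · left
      refine ⟨h.choose, h.choose_spec.1, h.choose_spec.2, ?_⟩
      simp only [al, dif_pos h]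
    · right
      refine ⟨h, ?_⟩
      simp only [al, dif_neg h]
  have himg : ∀ (g : Finset W) (c : Fin 6), (g.image (s c)).image C.pt = g.image pt := by
    intro g c
    rw [Finset.image_image]
    exact Finset.image_congr fun w _ => hs c w
  have hdis : ∀ (g : Finset W) (t : Ty τ N (Fin k)) (c : Fin 6), C.gd (g.image (s c)) t →
      ∀ w ∈ g, pt w ∉ I := by
    intro g t c hg w hw hI
    have h1 := (hC.ok _ t hg).1
    exact Finset.disjoint_left.1 h1 ((@Finset.mem_image _ _ (_) _ _ _).2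
      ⟨s c w, Finset.mem_image_of_mem _ hw, hs c w⟩) hI
  have halI : ∀ (g : Finset W) (t : Ty τ N (Fin k)) (c : Fin 6), C.gd (g.image (s c)) t →
      ∀ v ∈ I, al g v = Sum.inr v := by
    intro g t c hg v hv
    rcases hal1 g v with ⟨w, hw, hw', -⟩ | ⟨-, e⟩
    · exact absurd (hw' ▸ hv) (hdis g t c hg w hw)
    · exact e
  have halw : ∀ g : Finset W, Set.InjOn pt (g : Set W) → ∀ w ∈ g, al g (pt w) = Sum.inl w := by
    intro g hg w hw
    rcases hal1 g (pt w) with ⟨w', hw', h1, e⟩ | ⟨h1, -⟩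
    · rw [e, hg hw' hw h1]
    · exact absurd ⟨w, hw, rfl⟩ h1
  let Act : Finset W → Finset (Fin k) → Ty τ N (Fin k) → Prop := fun g S P =>
    Mx F P ∧ Set.InjOn pt (g : Set W) ∧ S ⊆ g.image pt ∪ I ∧ ∃ t : Fin 6 → Ty τ N (Fin k),
      ∀ c, C.gd (g.image (s c)) (t c) ∧ rse S (t c) = rse S P
  have hy : ∀ (c : Fin 6) (g : Finset W) (S : Finset (Fin k)) (P : Ty τ N (Fin k)), Act g S P →
      ∃ y : Fin (nP P) → A, IsHom (DP P) 𝔸 y ∧ ∀ v ∈ S, y (dP P v) = ux c (al g v) := by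
    rintro c g S P ⟨hP, hinj, hS, t, ht⟩
    refine (hF (g.image (s c)) (t c) (ht c).1 (fun v => ux c (al g v)) (fun v hv => ?_)
      (fun x hx => ?_)).1 P S hP ?_ (ht c).2.symm
    · rw [halI g (t c) c (ht c).1 v hv]
      rfl
    · obtain ⟨w, hw, rfl⟩ := Finset.mem_image.1 hx
      rw [hs, halw g hinj w hw]
      rfl
    · rw [himg]
      exact hS
  have hAne : Nonempty A := ⟨a ⟨0, hk⟩⟩
  choose! y hy1 hy2 using hy
  let j : Finset W → Finset (Fin k) → (P : Ty τ N (Fin k)) → Fin (nP P) → BB W τ N k nP :=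
    fun g S P i => if h : ∃ v ∈ S, dP P v = i then Sum.inl (al g h.choose)
      else Sum.inr ((g, S), ⟨P, i⟩)
  have hj1 : ∀ g S P i, (∃ v ∈ S, dP P v = i ∧ j g S P i = Sum.inl (al g v)) ∨
      j g S P i = Sum.inr ((g, S), ⟨P, i⟩) := by
    intro g S P i
    by_cases h : ∃ v ∈ S, dP P v = i
    · left
      refine ⟨h.choose, h.choose_spec.1, h.choose_spec.2, ?_⟩
      simp only [j, dif_pos h]
    · right
      simp only [j, dif_neg h]
  have hj2 : ∀ g S P, Mx F P → ∀ v ∈ S, j g S P (dP P v) = Sum.inl (al g v) := by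
    intro g S P hP v hv
    have h : ∃ v' ∈ S, dP P v' = dP P v := ⟨v, hv, rfl⟩
    simp only [j, dif_pos h]
    rw [(hgad P hP).inj h.choose_spec.2]
  let 𝕎 : Str σ (BB W τ N k nP) := fun l z =>
    (∃ g S P, Act g S P ∧ ∃ z', DP P l z' ∧ z = fun i => j g S P (z' i)) ∨
    ∃ z' : Fin (σ.ar l) → W ⊕ Fin k, z = (fun i => Sum.inl (z' i)) ∧
      ∀ c, 𝔸 l (fun i => ux c (z' i))
  let u : Fin 6 → BB W τ N k nP → A := fun c => Sum.elim (ux c) (fun q =>
    y c q.1.1 q.1.2 q.2.1 q.2.2)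
  have huj : ∀ c g S P, Act g S P → ∀ i, u c (j g S P i) = y c g S P i := by
    intro c g S P hact i
    rcases hj1 g S P i with ⟨v, hv, hvi, e⟩ | e
    · rw [e, ← hvi, hy2 c g S P hact v hv]
      rfl
    · rw [e]
      rfl
  obtain ⟨x', hx1, hx2⟩ := hh 𝕎 u (by
    rintro c l z (⟨g, S, P, hact, z', hz', rfl⟩ | ⟨z', rfl, hz'⟩)
    · simp only [huj c g S P hact]
      exact hy1 c g S P hact l z' hz'
    · exact hz' c)
  refine ⟨fun b => x' (Sum.inl b), fun α => hx2 (fun v => Sum.inl (α v)), ?_⟩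
  intro g t hinj hgd α hα1 hα2
  have hαal : ∀ v ∈ g.image pt ∪ I, al g v = α v := by
    intro v hv
    rcases Finset.mem_union.1 hv with h1 | h1
    · obtain ⟨w, hw, rfl⟩ := Finset.mem_image.1 h1
      rw [halw g hinj w hw, hα1 w hw]
    · rw [halI g (t 0) 0 (hgd 0) v h1, hα2 v h1]
  refine ⟨fun S P hS hP he => ?_, fun l z hz hl => ?_⟩
  · have hact : Act g S P := ⟨hP, hinj, hS, t, fun c => ⟨hgd c, he c⟩⟩
    let M1 : Str τ (Fin (nP P)) := fun c z => 𝔸' c (fun i => x' (j g S P (z i)))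
    have hM1 : IsHom M1 𝔸' (fun i => x' (j g S P i)) := fun l z hz => hz
    have h1 : P ⊆ tp N M1 (dP P) := (hgad P hP).all M1 (Val.of_hom hval hM1) (by
      intro l z hz
      have h2 := hx1 l (fun i => j g S P (z i)) (Or.inl ⟨g, S, P, hact, z, hz, rfl⟩)
      obtain ⟨c, hc, h, h3⟩ := hcols l _ h2
      exact ⟨c, hc, h, h3⟩)
    obtain ⟨hT1, -, -, -⟩ := hTPB τ N (Fin (nP P)) A (Fin k) (Fin k) M1 𝔸' (dP P)
    have h2 := hT1 _ hM1
    obtain ⟨-, -, hT3, -⟩ := hTPB τ N A A (Fin k) (Fin k) 𝔸' 𝔸'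
      (fun v => x' (j g S P (dP P v)))
    have h3 := hT3 (fun v => x' (Sum.inl (α v))) S (fun v hv => by
      rw [hj2 g S P hP v hv, hαal v (hS hv)])
    have h4 : rse S P ⊆ rse S (K (fun v => x' (Sum.inl (α v)))) := by
      refine (rse_mono (h1.trans h2)).trans ?_
      rw [h3]
      exact rse_mono (hK3 _)
    obtain ⟨W2, hW2, M2, b2, hv2, he2⟩ := (hK1 (fun v => x' (Sum.inl (α v)))).1
    have h5 := hMXS τ N F (Fin k) W2 P M2 b2 S hH hP hv2 (by
      rw [he2]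
      exact h4)
    rw [he2] at h5
    exact h5
  · have h1 : ∀ c, 𝔸 l (fun i => ux c (α (z i))) := by
      intro c
      refine (hF (g.image (s c)) (t c) (hgd c) (fun v => ux c (α v)) (fun v hv => ?_)
        (fun x hx => ?_)).2 l z (fun i => ?_) (hl c)
      · rw [hα2 v hv]
        rfl
      · obtain ⟨w, hw, rfl⟩ := Finset.mem_image.1 hx
        rw [hs, hα1 w hw]
        rfl
      · rw [himg]
        exact hz i
    have h2 := hx1 l (fun i => Sum.inl (α (z i))) (Or.inr ⟨fun i => α (z i), rfl, h1⟩)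
    obtain ⟨c, hc, h, h3⟩ := hcols l _ h2
    exact ⟨c, hc, h, hK3 _ ((hATM τ N F A (Fin k) 𝔸' (fun v => x' (Sum.inl (α v))) c
      (fun i => z (Fin.cast h i)) hH).2 h3)⟩

end Pool.Agent.H50.GM
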