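import Pool.Agent.H53.GM.Targets2

/-!
# Forbidden coloured patterns: realization of good systems in the template
-/

set_option autoImplicit false

namespace Pool.Agent.H50.GM

open Pool.Agent.H68.BP Pool.Agent.H58.SF Pool.Agent.H53.GC Pool.Agent.H53.GR Pool.Agent.H53.GM
open Classical

theorem pf_REL (hATM : Pool.Agent.H53.GM.T_ATM) (_hTPB : Pool.Agent.H53.GM.T_TPB)
    (hBLW : Pool.Agent.H53.GM.T_BLW) (hGAD : Pool.Agent.H53.GM.T_GAD) :
    Pool.Agent.H53.GM.T_REL := by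
  intro τ σ N k F Al A 𝔸 hH hT nP DP dP hgad I V _ C hC hG
  obtain ⟨W', hW', M, f0, a0, hMv, hM⟩ := hG
  let J := (V ⊕ Fin k) ⊕ Unit
  have hJ : Nonempty J := ⟨Sum.inr ()⟩
  obtain ⟨hb1, hb2⟩ := hBLW τ N F W' J M hJ
  let M1 := blw M J
  let f1 : V → W' × J := fun x => (f0 x, Sum.inl (Sum.inl x))
  let a1 : Fin k → W' × J := fun v => (a0 v, Sum.inl (Sum.inr v))
  -- the tuple of a guard
  let bG : Finset V → Fin k → W' × J := fun G v =>
    if h : ∃ x ∈ G, C.pt x = v then f1 h.choose else a1 v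
  have hbG1 : ∀ G v, (∃ x ∈ G, C.pt x = v ∧ bG G v = f1 x) ∨
      ((¬ ∃ x ∈ G, C.pt x = v) ∧ bG G v = a1 v) := by
    intro G v
    by_cases h : ∃ x ∈ G, C.pt x = v
    · left
      refine ⟨h.choose, h.choose_spec.1, h.choose_spec.2, ?_⟩
      simp only [bG, dif_pos h]
    · right
      refine ⟨h, ?_⟩
      simp only [bG, dif_neg h]
  have hbGi : ∀ G, Function.Injective (bG G) := by
    intro G v v' h
    rcases hbG1 G v with ⟨x, -, hx, e⟩ | ⟨-, e⟩
    · rcases hbG1 G v' with ⟨x', -, hx', e'⟩ | ⟨-, e'⟩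
      · rw [e, e'] at h
        have h1 : x = x' := Sum.inl.inj (Sum.inl.inj (congrArg Prod.snd h))
        rw [← hx, ← hx', h1]
      · rw [e, e'] at h
        have h1 : (Sum.inl x : V ⊕ Fin k) = Sum.inr v' := Sum.inl.inj (congrArg Prod.snd h)
        exact absurd h1 (by simp)
    · rcases hbG1 G v' with ⟨x', -, hx', e'⟩ | ⟨-, e'⟩
      · rw [e, e'] at h
        have h1 : (Sum.inr v : V ⊕ Fin k) = Sum.inl x' := Sum.inl.inj (congrArg Prod.snd h)
        exact absurd h1 (by simp)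
      · rw [e, e'] at h
        exact Sum.inr.inj (Sum.inl.inj (congrArg Prod.snd h))
  have hdis : ∀ G t, C.gd G t → ∀ x ∈ G, C.pt x ∉ I := by
    intro G t hg x hx hI
    have h1 := (hC.ok G t hg).1
    exact Finset.disjoint_left.1 h1 ((@Finset.mem_image _ _ (_) _ _ _).2 ⟨x, hx, rfl⟩) hI
  have hinj : ∀ G t, C.gd G t → ∀ x ∈ G, ∀ x' ∈ G, C.pt x = C.pt x' → x = x' :=
    fun G t hg x hx x' hx' h => hC.tr G t hg hx hx' h
  have hbGI : ∀ G t, C.gd G t → ∀ v ∈ I, bG G v = a1 v := by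
    intro G t hg v hv
    rcases hbG1 G v with ⟨x, hx, hx', e⟩ | ⟨-, e⟩
    · exact absurd (hx' ▸ hv) (hdis G t hg x hx)
    · exact e
  have hbGx : ∀ G t, C.gd G t → ∀ x ∈ G, bG G (C.pt x) = f1 x := by
    intro G t hg x hx
    rcases hbG1 G (C.pt x) with ⟨x', hx', h1, e⟩ | ⟨h, -⟩
    · rw [e, hinj G t hg x' hx' x hx h1]
    · exact absurd ⟨x, hx, rfl⟩ h
  have hty : ∀ G t, C.gd G t → rse (G.image C.pt ∪ I) (tp N M1 (bG G)) = t := by
    intro G t hg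
    have h1 : tp N M1 (bG G) = tp N M (fun v => (bG G v).1) := hb2 (Fin k) (bG G)
    rw [h1]
    refine hM G t hg (fun v => (bG G v).1) (fun v hv => ?_) (fun x hx => ?_)
    · rw [hbGI G t hg v hv]
    · rw [hbGx G t hg x hx]
  -- the gadgets
  let R := {q : Finset V × Ty τ N (Fin k) × Ty τ N (Fin k) × Finset (Fin k) //
    C.gd q.1 q.2.1 ∧ Mx F q.2.2.1 ∧ q.2.2.2 ⊆ q.1.image C.pt ∪ I ∧
      rse q.2.2.2 q.2.2.1 = rse q.2.2.2 q.2.1}
  have hfty := finite_ty τ N (Fin k)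
  have hfR : Finite R := Subtype.finite
  have hex : ∀ r : R, ∃ MR : Str τ (Fin (nP r.1.2.2.1)), Val F MR ∧
      Cols Al MR (DP r.1.2.2.1) ∧ tp N MR (dP r.1.2.2.1) = r.1.2.2.1 := fun r =>
    (hgad r.1.2.2.1 r.2.2.1).ex
  choose MR hMR1 hMR2 hMR3 using hex
  have hfW : Finite (W' × J) := inferInstance
  obtain ⟨W'', hW'', M', j, hv', -, hj, hg⟩ := hGAD τ N k F hH R (W' × J) M1
    (fun r => Fin (nP r.1.2.2.1)) (fun r => inferInstance) MR (fun r => r.1.2.2.2)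
    (fun r => bG r.1.1) (fun r => dP r.1.2.2.1) (hb1 hMv) hMR1
    (fun r => (hgad r.1.2.2.1 r.2.2.1).inj) (fun r => (hbGi _).injOn) (fun r => by
      obtain ⟨⟨G, t, P, s⟩, h1, h2, h3, h4⟩ := r
      rw [hMR3]
      change rse s (tp N M1 (bG G)) = rse s P
      rw [← rse_rse h3, hty G t h1]
      exact h4.symm)
  -- the structure of all allowed colours
  let 𝕏 : Str σ W'' := fun l z => ∃ c, Al l c ∧ ∃ h : τ.ar c = σ.ar l,
    M' c (fun i => z (Fin.cast h i))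
  obtain ⟨Φ, hΦ⟩ : ∃ Φ : W'' → A, IsHom 𝕏 𝔸 Φ := by
    let e := Finite.equivFin W''
    obtain ⟨Φ, hΦ⟩ := (hT (Nat.card W'') (fun l z => 𝕏 l (fun i => e.symm (z i)))).2
      ⟨fun c z => M' c (fun i => e.symm (z i)), Val.of_hom (f := e.symm) hv' (fun l z hz => hz),
        fun l z hz => hz⟩
    refine ⟨fun x => Φ (e x), fun l z hz => ?_⟩
    refine hΦ l (fun i => e (z i)) ?_
    change 𝕏 l (fun i => e.symm (e (z i)))
    simp only [Equiv.symm_apply_apply]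
    exact hz
  refine ⟨fun x => Φ (j (f1 x)), fun v => Φ (j (a1 v)), ?_⟩
  intro G t hgd b hbI hbx
  have hb : ∀ v ∈ G.image C.pt ∪ I, b v = Φ (j (bG G v)) := by
    intro v hv
    rcases hbG1 G v with ⟨x, hx, h1, e⟩ | ⟨h1, e⟩
    · rw [e, ← h1]
      exact hbx x hx
    · rw [e]
      refine hbI v ?_
      rcases Finset.mem_union.1 hv with h2 | h2
      · obtain ⟨x, hx, h3⟩ := Finset.mem_image.1 h2
        exact absurd ⟨x, hx, h3⟩ h1
      · exact h2
  refine ⟨fun P s hP hs he => ?_, fun l z hz hl => ?_⟩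
  · obtain ⟨g, hg1, hg2⟩ := hg ⟨(G, t, P, s), hgd, hP, hs, he⟩
    refine ⟨fun i => Φ (g i), fun l z hz => ?_, fun v hv => ?_⟩
    · obtain ⟨c, hc, h, h1⟩ := hMR2 ⟨(G, t, P, s), hgd, hP, hs, he⟩ l z hz
      exact hΦ l (fun i => g (z i)) ⟨c, hc, h, hg1 c _ h1⟩
    · rw [hb v (hs hv)]
      exact congrArg Φ (hg2 v hv)
  · obtain ⟨c, hc, h, h1⟩ := hl
    rw [← hty G t hgd] at h1
    have h2 := (hATM τ N F (W' × J) (Fin k) M1 (bG G) c (fun i => z (Fin.cast h i)) hH).1 h1.1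
    have h3 := hΦ l (fun i => j (bG G (z i))) ⟨c, hc, h, hj c _ h2⟩
    have h4 : (fun i => b (z i)) = fun i => Φ (j (bG G (z i))) := funext fun i => hb _ (hz i)
    rw [h4]
    exact h3

end Pool.Agent.H50.GM
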